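import Mathlib
import Pool.Agent.N89.GS.Stm

/-!
# Project GS, task NUL: uniform Nullstellensatz over a noetherian base
-/

set_option autoImplicit false

namespace Pool.Agent.N891.GS

open MvPolynomial

/-- the exponents of degree `N` -/
abbrev Bx (m N : ℕ) : Type := {α : Fin m →₀ ℕ // α ∈ Finset.finsuppAntidiag Finset.univ N}

theorem mem_Bx {m N : ℕ} (α : Fin m →₀ ℕ) :
    α ∈ Finset.finsuppAntidiag Finset.univ N ↔ ∑ j, α j = N := by
  rw [Finset.mem_finsuppAntidiag]
  constructor
  · exact fun h => h.1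
  · exact fun h => ⟨h, Finset.subset_univ _⟩

theorem deg_eq {m : ℕ} (α : Fin m →₀ ℕ) : α.degree = ∑ j, α j := by
  rw [Finsupp.degree_eq_sum]

/-- the coefficients of degree `N` -/
noncomputable def cf {k : Type} [CommRing k] (m N : ℕ) :
    MvPolynomial (Fin m) k →ₗ[k] (Bx m N → k) :=
  LinearMap.pi fun α => lcoeff k α.1

theorem cf_apply {k : Type} [CommRing k] {m N : ℕ} (p : MvPolynomial (Fin m) k) (α : Bx m N) :
    cf m N p α = coeff α.1 p := rfl

theorem expand {R : Type} [CommRing R] {m N : ℕ} (P : MvPolynomial (Fin m) R)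
    (hP : P.IsHomogeneous N) : P = ∑ α : Bx m N, C (cf m N P α) * monomial α.1 1 := by
  ext γ
  rw [coeff_sum]
  simp only [C_mul_monomial, mul_one, coeff_monomial, cf_apply]
  by_cases h : ∑ j, γ j = N
  · rw [Finset.sum_eq_single (⟨γ, (mem_Bx γ).2 h⟩ : Bx m N)]
    · simp
    · intro b _ hb
      rw [if_neg]
      intro h'
      exact hb (Subtype.ext h')
    · intro h'; exact absurd (Finset.mem_univ _) h'
  · rw [Finset.sum_eq_zero]
    · by_contra h'
      have := hP h'
      apply h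
      rw [← this, ← deg_eq, Finsupp.degree_eq_weight_one]
      rfl
    · intro b _
      rw [if_neg]
      rintro rfl
      exact h ((mem_Bx _).1 b.2)

/-- the ideal of the `a` with `a X^α ∈ J` for all `α` of degree `N` -/
noncomputable def IN {R : Type} [CommRing R] {m : ℕ} (J : Ideal (MvPolynomial (Fin m) R)) (N : ℕ) :
    Ideal R where
  carrier := {a | ∀ α : Fin m →₀ ℕ, ∑ j, α j = N → C a * monomial α (1 : R) ∈ J}
  add_mem' := by
    intro a b ha hb α hα
    rw [C_add, add_mul]
    exact J.add_mem (ha α hα) (hb α hα)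
  zero_mem' := by
    intro α _
    rw [C_0, zero_mul]
    exact J.zero_mem
  smul_mem' := by
    intro c a ha α hα
    rw [smul_eq_mul, C_mul, mul_assoc]
    exact J.mul_mem_left _ (ha α hα)

theorem mem_IN {R : Type} [CommRing R] {m : ℕ} (J : Ideal (MvPolynomial (Fin m) R)) (N : ℕ)
    (a : R) : a ∈ IN J N ↔ ∀ α : Fin m →₀ ℕ, ∑ j, α j = N → C a * monomial α (1 : R) ∈ J :=
  Iff.rfl

theorem split_mon {R : Type} [CommRing R] {m : ℕ} (α : Fin m →₀ ℕ) (j : Fin m) (c : ℕ)
    (h : c ≤ α j) : monomial α (1 : R) = X j ^ c * monomial (α - Finsupp.single j c) 1 := by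
  rw [X_pow_eq_monomial, monomial_mul, one_mul]
  congr 1
  rw [add_tsub_cancel_of_le]
  rwa [Finsupp.single_le_iff]

theorem IN_mono {R : Type} [CommRing R] {m : ℕ} (J : Ideal (MvPolynomial (Fin m) R)) :
    Monotone (IN J) := by
  refine monotone_nat_of_le_succ fun N a ha α hα => ?_
  have h1 : ∃ j, 1 ≤ α j := by
    by_contra! h
    have : ∑ j, α j = 0 := Finset.sum_eq_zero fun j _ => by have := h j; omega
    omega
  obtain ⟨j, hj⟩ := h1
  rw [split_mon α j 1 hj, pow_one, mul_left_comm]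
  refine J.mul_mem_left _ (ha _ ?_)
  have h2 : ∑ i, (α - Finsupp.single j 1 : Fin m →₀ ℕ) i + 1 = ∑ i, α i := by
    have h3 : ∑ i, (Finsupp.single j 1 : Fin m →₀ ℕ) i = 1 := by
      rw [Finset.sum_eq_single j]
      · simp
      · intro b _ hb; rw [Finsupp.single_apply, if_neg (Ne.symm hb)]
      · intro h; exact absurd (Finset.mem_univ _) h
    have h5 : ∑ i, (α - Finsupp.single j 1 : Fin m →₀ ℕ) i +
        ∑ i, (Finsupp.single j 1 : Fin m →₀ ℕ) i = ∑ i, α i := ?_
    · rw [h3] at h5; exact h5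
    rw [← Finset.sum_add_distrib]
    refine Finset.sum_congr rfl fun i _ => ?_
    have h4 : (Finsupp.single j 1 : Fin m →₀ ℕ) i ≤ α i := by
      rw [Finsupp.single_apply]
      split_ifs with h
      · rw [← h]; exact hj
      · exact Nat.zero_le _
    rw [Finsupp.tsub_apply]
    omega
  omega

theorem det_mem {R : Type} [CommRing R] {m N : ℕ} (J : Ideal (MvPolynomial (Fin m) R))
    (P : Bx m N → MvPolynomial (Fin m) R) (hJ : ∀ b, P b ∈ J) (hP : ∀ b, (P b).IsHomogeneous N) :
    Matrix.det (Matrix.of fun b b' : Bx m N => cf m N (P b) b') ∈ IN J N := by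
  intro α hα
  set V : Matrix (Bx m N) (Bx m N) R := Matrix.of fun b b' : Bx m N => cf m N (P b) b' with hV
  set b₀ : Bx m N := ⟨α, (mem_Bx α).2 hα⟩ with hb₀
  have h1 : C V.det * monomial α (1 : R) = ∑ b, C (V.adjugate b₀ b) * P b := by
    have h2 : ∀ b, P b = ∑ b' : Bx m N, C (V b b') * monomial b'.1 1 := fun b => expand _ (hP b)
    calc C V.det * monomial α (1 : R)
        = ∑ b' : Bx m N, C ((V.adjugate * V) b₀ b') * monomial b'.1 1 := by
          rw [Matrix.adjugate_mul, Finset.sum_eq_single b₀]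
          · simp [hb₀]
          · intro b' _ hb'
            rw [Matrix.smul_apply, Matrix.one_apply_ne (Ne.symm hb'), smul_zero, C_0, zero_mul]
          · intro h; exact absurd (Finset.mem_univ _) h
      _ = ∑ b' : Bx m N, ∑ b, C (V.adjugate b₀ b) * (C (V b b') * monomial b'.1 1) := by
          refine Finset.sum_congr rfl fun b' _ => ?_
          rw [Matrix.mul_apply, map_sum, Finset.sum_mul]
          refine Finset.sum_congr rfl fun b _ => ?_
          rw [C_mul, mul_assoc]
      _ = ∑ b, C (V.adjugate b₀ b) * P b := by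
          rw [Finset.sum_comm]
          refine Finset.sum_congr rfl fun b _ => ?_
          rw [h2 b, Finset.mul_sum]
  rw [h1]
  exact J.sum_mem fun b _ => J.mul_mem_left _ (hJ b)

theorem nullst {k : Type} [Field k] [IsAlgClosed k] {m : ℕ} {ι : Type}
    (g : ι → MvPolynomial (Fin m) k)
    (hT : ∀ T : Fin m → k, T ≠ 0 → ∃ i, eval T (g i) ≠ 0) :
    ∃ N : ℕ, ∀ α : Fin m →₀ ℕ, ∑ j, α j = N →
      monomial α (1 : k) ∈ Ideal.span (Set.range g) := by
  set J := Ideal.span (Set.range g) with hJ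
  have h1 : ∀ j : Fin m, (X j : MvPolynomial (Fin m) k) ∈ J.radical := by
    intro j
    rw [← vanishingIdeal_zeroLocus_eq_radical (K := k) J, mem_vanishingIdeal_iff]
    intro x hx
    have h2 : x = 0 := by
      by_contra h
      obtain ⟨i, hi⟩ := hT x h
      apply hi
      have := (mem_zeroLocus_iff.1 hx) (g i) (Ideal.subset_span ⟨i, rfl⟩)
      rwa [← coe_aeval_eq_eval]
    rw [h2]
    simp
  choose M hM using h1
  set M' := ∑ j, M j with hM'
  refine ⟨m * M' + 1, fun α hα => ?_⟩
  have h2 : ∃ j, M' ≤ α j := by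
    by_contra! h
    have h3 : ∑ j, α j ≤ ∑ _j : Fin m, M' := Finset.sum_le_sum fun j _ => (h j).le
    rw [Finset.sum_const, Finset.card_univ, Fintype.card_fin, smul_eq_mul] at h3
    omega
  obtain ⟨j, hj⟩ := h2
  have h3 : M j ≤ M' := Finset.single_le_sum (fun i _ => Nat.zero_le (M i)) (Finset.mem_univ j)
  rw [split_mon α j (M j) (h3.trans hj)]
  exact J.mul_mem_right _ (hM j)

/-- the rows -/
abbrev Rw {m : ℕ} {ι : Type} (f : ι → ℕ) (N : ℕ) : Type :=
  {q : ι × (Fin m →₀ ℕ) // (∑ j, q.2 j) + f q.1 = N}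

theorem hom_row {k : Type} [CommRing k] {m : ℕ} {ι : Type}
    (g : ι → MvPolynomial (Fin m) k) (f : ι → ℕ) (hg : ∀ i, (g i).IsHomogeneous (f i))
    (i : ι) (β : Fin m →₀ ℕ) :
    (monomial β (1 : k) * g i).IsHomogeneous ((∑ j, β j) + f i) := by
  refine IsHomogeneous.mul (isHomogeneous_monomial _ ?_) (hg i)
  rw [deg_eq]

theorem cf_zero {k : Type} [CommRing k] {m N n : ℕ} (P : MvPolynomial (Fin m) k)
    (hP : P.IsHomogeneous n) (h : n ≠ N) : cf m N P = 0 := by
  funext α
  rw [cf_apply, Pi.zero_apply]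
  by_contra h'
  apply h
  have h1 := hP h'
  have h2 : (α.1).degree = N := by rw [deg_eq, (mem_Bx α.1).1 α.2]
  rw [Finsupp.degree_eq_weight_one] at h2
  exact h1.symm.trans h2

theorem cf_mem {k : Type} [Field k] {m N : ℕ} {ι : Type} [Finite ι]
    (g : ι → MvPolynomial (Fin m) k) (f : ι → ℕ) (hg : ∀ i, (g i).IsHomogeneous (f i))
    (p : MvPolynomial (Fin m) k) (hp : p ∈ Ideal.span (Set.range g)) :
    cf m N p ∈ Submodule.span k
      (Set.range fun q : Rw f N => cf m N (monomial q.1.2 (1 : k) * g q.1.1)) := by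
  classical
  have := Fintype.ofFinite ι
  rw [Ideal.mem_span_range_iff_exists_fun] at hp
  obtain ⟨h, rfl⟩ := hp
  rw [map_sum]
  refine Submodule.sum_mem _ fun i _ => ?_
  have h1 : h i * g i = ∑ β ∈ (h i).support, coeff β (h i) • (monomial β (1 : k) * g i) := by
    conv_lhs => rw [(h i).as_sum, Finset.sum_mul]
    refine Finset.sum_congr rfl fun β _ => ?_
    rw [← smul_mul_assoc, smul_monomial, smul_eq_mul, mul_one]
  rw [h1, map_sum]
  refine Submodule.sum_mem _ fun β _ => ?_
  rw [map_smul]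
  refine Submodule.smul_mem _ _ ?_
  by_cases hN : (∑ j, β j) + f i = N
  · exact Submodule.subset_span ⟨⟨(i, β), hN⟩, rfl⟩
  · rw [cf_zero _ (hom_row g f hg i β) hN]
    exact Submodule.zero_mem _

theorem rows {k : Type} [Field k] {m N : ℕ} {ι : Type} [Finite ι]
    (g : ι → MvPolynomial (Fin m) k) (f : ι → ℕ) (hg : ∀ i, (g i).IsHomogeneous (f i))
    (hN : ∀ α : Fin m →₀ ℕ, ∑ j, α j = N → monomial α (1 : k) ∈ Ideal.span (Set.range g)) :
    ∃ s : Bx m N → Rw (m := m) f N, Matrix.det (Matrix.of fun b b' : Bx m N =>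
      cf m N (monomial (s b).1.2 (1 : k) * g (s b).1.1) b') ≠ 0 := by
  classical
  set ρ : Rw (m := m) f N → (Bx m N → k) :=
    fun q => cf m N (monomial q.1.2 (1 : k) * g q.1.1) with hρ
  have hspan : Submodule.span k (Set.range ρ) = ⊤ := by
    rw [eq_top_iff, ← (Pi.basisFun k (Bx m N)).span_eq, Submodule.span_le]
    rintro _ ⟨b, rfl⟩
    have h1 := cf_mem (N := N) g f hg _ (hN b.1 ((mem_Bx b.1).1 b.2))
    have h2 : cf m N (monomial b.1 (1 : k)) = Pi.basisFun k (Bx m N) b := by
      funext b'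
      rw [cf_apply, coeff_monomial, Pi.basisFun_apply, Pi.single_apply]
      by_cases h : b = b'
      · rw [h, if_pos rfl, if_pos rfl]
      · rw [if_neg (fun h' => h (Subtype.ext h')), if_neg (Ne.symm h)]
    rw [h2] at h1
    exact h1
  obtain ⟨κ, a, _, hsp, hli⟩ := exists_linearIndependent' k ρ
  have hsp' : ⊤ ≤ Submodule.span k (Set.range (ρ ∘ a)) := by rw [hsp, hspan]
  let bs : Module.Basis κ k (Bx m N → k) := Module.Basis.mk hli hsp'
  let e : κ ≃ Bx m N := bs.indexEquiv (Pi.basisFun k (Bx m N))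
  refine ⟨a ∘ e.symm, ?_⟩
  have h3 : LinearIndependent k (ρ ∘ (a ∘ e.symm)) := by
    have := hli.comp e.symm e.symm.injective
    exact this
  have h4 : IsUnit (Matrix.of fun b b' : Bx m N =>
      cf m N (monomial ((a ∘ e.symm) b).1.2 (1 : k) * g ((a ∘ e.symm) b).1.1) b') := by
    rw [← Matrix.linearIndependent_rows_iff_isUnit]
    exact h3
  exact ((Matrix.isUnit_iff_isUnit_det _).1 h4).ne_zero

theorem main : N89.GS.S_NUL := by
  intro R _ _ m ι _ g f hg
  classical
  set J := Ideal.span (Set.range g) with hJ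
  obtain ⟨N₀, hN₀⟩ := (monotone_stabilizes_iff_noetherian (R := R) (M := R)).2 inferInstance
    ⟨IN J, IN_mono J⟩
  have hle : ∀ N, IN J N ≤ IN J N₀ := by
    intro N
    rcases le_total N N₀ with h | h
    · exact IN_mono J h
    · exact le_of_eq (hN₀ N h).symm
  obtain ⟨A, hA⟩ := (IsNoetherian.noetherian (IN J N₀) : (IN J N₀).FG)
  refine ⟨N₀, A, ?_, ?_⟩
  · intro a ha
    have h1 : a ∈ IN J N₀ := by
      rw [← hA]; exact Submodule.subset_span ha
    exact (mem_IN J N₀ a).1 h1
  · intro k _ _ ψ hT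
    set g' : ι → MvPolynomial (Fin m) k := fun i => map ψ (g i) with hg'
    have hg'h : ∀ i, (g' i).IsHomogeneous (f i) := fun i => (hg i).map ψ
    obtain ⟨N, hN⟩ := nullst g' (fun T hT0 => by
      obtain ⟨i, hi⟩ := hT T hT0
      refine ⟨i, ?_⟩
      rw [hg']
      simp only
      rwa [eval_map])
    obtain ⟨s, hs⟩ := rows g' f hg'h hN
    have h1 := det_mem (N := N) J (fun b => monomial (s b).1.2 (1 : R) * g (s b).1.1)
      (fun b => J.mul_mem_left _ (Ideal.subset_span ⟨_, rfl⟩))
      (fun b => by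
        have := hom_row g f hg (s b).1.1 (s b).1.2
        rwa [(s b).2] at this)
    set dt := Matrix.det (Matrix.of fun b b' : Bx m N =>
      cf m N (monomial (s b).1.2 (1 : R) * g (s b).1.1) b') with hdt
    have h2 : ψ dt ≠ 0 := by
      rw [hdt, RingHom.map_det]
      convert! hs using 2
      ext b b'
      simp only [RingHom.mapMatrix_apply, Matrix.map_apply, Matrix.of_apply, cf_apply]
      rw [hg', ← coeff_map, map_mul, map_monomial, map_one]
    by_contra! h
    apply h2
    have h3 : IN J N₀ ≤ RingHom.ker ψ := by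
      rw [← hA]
      exact Submodule.span_le.2 fun a ha => h a ha
    exact h3 (hle N h1)

end Pool.Agent.N891.GS
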